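import Pool.Agent.N749.DT.FINa

/-!
Project DT (MP_fb67b4_an), task FIN: from the order zero map and the element `T` to the
Rørdam–Winter elements.
-/

set_option autoImplicit false

noncomputable section

namespace Pool.Agent.N749.DT

open Pool.Agent.N299 Pool.Agent.N299.DT

/-- `t ↦ m^{-3/2}`, `m = max t δ` -/
def hf (δ t : ℝ) : ℝ := (max t δ * Real.sqrt (max t δ))⁻¹

/-- `κ` -/
def kf (δ t : ℝ) : ℝ := hf δ t * t

/-- the function of the inverse square root -/
def gf (η t : ℝ) : ℝ := (Real.sqrt (max t 0 + η))⁻¹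

section fns

variable {δ η : ℝ}

lemma max_pos' (hδ : 0 < δ) (t : ℝ) : 0 < max t δ := lt_of_lt_of_le hδ (le_max_right _ _)

lemma hf_pos (hδ : 0 < δ) (t : ℝ) : 0 < hf δ t := by
  have h := max_pos' hδ t
  have h2 := Real.sqrt_pos.2 h
  unfold hf
  positivity

lemma hf_cont (hδ : 0 < δ) : Continuous (hf δ) := by
  unfold hf
  refine Continuous.inv₀ (by fun_prop) fun t => ?_
  have h := max_pos' hδ t
  have h2 := Real.sqrt_pos.2 h
  positivity

lemma kf_cont (hδ : 0 < δ) : Continuous (kf δ) := (hf_cont hδ).mul continuous_id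

lemma kf_one (h1 : δ ≤ 1) : kf δ 1 = 1 := by
  simp [kf, hf, max_eq_left h1]

lemma hf_sq (hδ : 0 < δ) (t : ℝ) : hf δ t * hf δ t * (max t δ) ^ 3 = 1 := by
  have h := max_pos' hδ t
  have h2 := Real.sqrt_pos.2 h
  have h3 : Real.sqrt (max t δ) * Real.sqrt (max t δ) = max t δ := Real.mul_self_sqrt h.le
  unfold hf
  have h4 : (max t δ * Real.sqrt (max t δ)) * (max t δ * Real.sqrt (max t δ)) = (max t δ) ^ 3 := by
    calc _ = max t δ * max t δ * (Real.sqrt (max t δ) * Real.sqrt (max t δ)) := by ring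
      _ = _ := by rw [h3]; ring
  rw [← h4]
  field_simp

lemma wf_bounds (hδ : 0 < δ) (t : ℝ) (h0 : 0 ≤ t) :
    0 ≤ kf δ t * kf δ t * t * t ∧ kf δ t * kf δ t * t * t ≤ t ∧
      t - kf δ t * kf δ t * t * t ≤ δ := by
  have h1 := hf_sq hδ t
  have h2 := hf_pos hδ t
  have h3 : kf δ t * kf δ t * t * t = hf δ t * hf δ t * t ^ 4 := by unfold kf; ring
  rw [h3]
  refine ⟨by positivity, ?_, ?_⟩
  · have h4 : t ^ 3 ≤ (max t δ) ^ 3 := by
      have := le_max_left t δ
      gcongr
    calc hf δ t * hf δ t * t ^ 4 = hf δ t * hf δ t * t ^ 3 * t := by ring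
      _ ≤ hf δ t * hf δ t * (max t δ) ^ 3 * t := by gcongr
      _ = t := by rw [h1, one_mul]
  · rcases le_total δ t with h4 | h4
    · rw [max_eq_left h4] at h1
      have : hf δ t * hf δ t * t ^ 4 = t := by
        calc _ = hf δ t * hf δ t * t ^ 3 * t := by ring
          _ = t := by rw [h1, one_mul]
      rw [this]
      linarith
    · have : 0 ≤ hf δ t * hf δ t * t ^ 4 := by positivity
      linarith

lemma gf_cont (hη : 0 < η) : Continuous (gf η) := by
  unfold gf
  refine Continuous.inv₀ (by fun_prop) fun t => ?_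
  have h : 0 < max t 0 + η := by
    have := le_max_right t 0
    linarith
  exact (Real.sqrt_pos.2 h).ne'

lemma gf_id (hη : 0 < η) (t : ℝ) (ht : 0 ≤ t) : gf η t * t * gf η t = 1 - η * (gf η t * gf η t) := by
  have h : 0 < t + η := by linarith
  have h2 : Real.sqrt (t + η) * Real.sqrt (t + η) = t + η := Real.mul_self_sqrt h.le
  have h3 := (Real.sqrt_pos.2 h).ne'
  unfold gf
  rw [max_eq_left ht]
  field_simp
  rw [pow_two, h2]
  ring

end fns

variable {E : Type} [CStarAlgebra E]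

lemma norm_one_le' : ‖(1 : E)‖ ≤ 1 := by
  cases subsingleton_or_nontrivial E with
  | inl h => simp [Subsingleton.elim (1 : E) 0]
  | inr h => exact CStarRing.norm_one.le

lemma norm_le_one_of_pos {y : E} (h : Pos (1 - star y * y)) : ‖y‖ ≤ 1 := by
  have h1 : Pos (((1 : ℝ) : ℂ) • (star (1 : E) * 1) - star y * y) := by
    simpa using h
  have h2 := norm_sq_le_of_pos zero_le_one h1
  have h3 : ‖(1 : E)‖ ^ 2 ≤ 1 := by
    have := norm_one_le' (E := E)
    have h0 := norm_nonneg (1 : E)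
    nlinarith
  have h4 := norm_nonneg y
  nlinarith

theorem t_FIN : S_FIN := by
  intro N E _ θ ψ T ρ hρ hMS hT hψT hθT ε hε
  let _ : PartialOrder E := CStarAlgebra.spectralOrder E
  let _ : StarOrderedRing E := CStarAlgebra.spectralOrderedRing E
  have hθ : IsSelfAdjoint θ := hMS.pos.sa
  have hθ0 : 0 ≤ θ := (pos_iff θ).1 hMS.pos
  have hθ1 : θ ≤ 1 := sub_nonneg.1 ((pos_iff _).1 hMS.le)
  have hsp0 : ∀ t ∈ spectrum ℝ θ, 0 ≤ t := fun t ht => spectrum_nonneg_of_nonneg hθ0 ht
  have hsp1 : ∀ t ∈ spectrum ℝ θ, t ≤ 1 := by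
    have h1 : θ ≤ algebraMap ℝ E 1 := by rwa [map_one]
    exact (le_algebraMap_iff_spectrum_le hθ).1 h1
  obtain ⟨δ, hδ, hδ1, hδε⟩ : ∃ δ : ℝ, 0 < δ ∧ δ ≤ 1 ∧ δ ≤ ε / 2 :=
    ⟨min 1 (ε / 2), by positivity, min_le_left _ _, min_le_right _ _⟩
  obtain ⟨η, hη, hηρ⟩ : ∃ η : ℝ, 0 < η ∧ η / ρ ≤ ε / 2 :=
    ⟨ρ * ε / 2, by positivity, by field_simp; rfl⟩
  -- the elements
  obtain ⟨H2, hH2⟩ : ∃ H2 : E, H2 = cfc (fun t => Real.sqrt (hf δ t)) θ := ⟨_, rfl⟩
  obtain ⟨K, hK⟩ : ∃ K : E, K = cfc (kf δ) θ := ⟨_, rfl⟩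
  obtain ⟨V, hV⟩ : ∃ V : E, V = cfc (fun t : ℝ => Real.sqrt (1 - t)) θ := ⟨_, rfl⟩
  obtain ⟨a, ha⟩ : ∃ a : E, a = star T * T := ⟨_, rfl⟩
  obtain ⟨G, hG⟩ : ∃ G : E, G = cfc (gf η) a := ⟨_, rfl⟩
  have hasa : IsSelfAdjoint a := by rw [ha]; exact IsSelfAdjoint.star_mul_self T
  have ha0 : 0 ≤ a := by rw [ha]; exact star_mul_self_nonneg T
  have hspa : ∀ t ∈ spectrum ℝ a, 0 ≤ t := fun t ht => spectrum_nonneg_of_nonneg ha0 ht
  have sH2 : star H2 = H2 := by rw [hH2]; exact cfc_sa _ _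
  have sK : star K = K := by rw [hK]; exact cfc_sa _ _
  have sV : star V = V := by rw [hV]; exact cfc_sa _ _
  have sG : star G = G := by rw [hG]; exact cfc_sa _ _
  -- commutation with the matrix units
  have cK : ∀ i j, Commute K (ψ i j) := fun i j => by
    rw [hK]; exact (ms_comm hMS i j).cfc_real _
  have cH2 : ∀ i j, Commute H2 (ψ i j) := fun i j => by
    rw [hH2]; exact (ms_comm hMS i j).cfc_real _
  have cθK : Commute θ K := by
    rw [hK]; exact ((Commute.refl θ).cfc_real _).symm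
  -- identities
  have hsqrt : Continuous (fun t => Real.sqrt (hf δ t)) := (hf_cont hδ).sqrt
  have e1 : H2 * H2 * θ = K := by
    rw [hH2, hK]
    nth_rewrite 3 [← cfc_id' ℝ θ]
    rw [← cfc_mul (R := ℝ) _ _ θ hsqrt.continuousOn hsqrt.continuousOn,
      ← cfc_mul (R := ℝ) (fun t => Real.sqrt (hf δ t) * Real.sqrt (hf δ t)) (fun t => t) θ
        (hsqrt.mul hsqrt).continuousOn (by fun_prop)]
    refine cfc_congr fun t _ => ?_
    show Real.sqrt (hf δ t) * Real.sqrt (hf δ t) * t = kf δ t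
    rw [Real.mul_self_sqrt (hf_pos hδ t).le]
    rfl
  have e2 : V * V = 1 - θ := by
    have hc : Continuous (fun t : ℝ => Real.sqrt (1 - t)) := by fun_prop
    rw [hV, ← cfc_mul (R := ℝ) _ _ θ hc.continuousOn hc.continuousOn]
    have h1 : (1 : E) - θ = cfc (fun t : ℝ => 1 - t) θ := by
      rw [cfc_sub (R := ℝ) _ _ θ (by fun_prop) (by fun_prop), cfc_id' ℝ θ, cfc_const_one ℝ θ]
    rw [h1]
    refine cfc_congr fun t ht => ?_
    show Real.sqrt (1 - t) * Real.sqrt (1 - t) = 1 - t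
    rw [Real.mul_self_sqrt]
    linarith [hsp1 t ht]
  have e3 : G * a * G = 1 - (η : ℂ) • (G * G) := by
    have hc := gf_cont hη
    have h1 : G * a * G = cfc (fun t : ℝ => gf η t * t * gf η t) a := by
      rw [cfc_mul (R := ℝ) (fun t => gf η t * t) (gf η) a ((hc.mul continuous_id).continuousOn)
        hc.continuousOn, cfc_mul (R := ℝ) (gf η) (fun t => t) a hc.continuousOn (by fun_prop),
        cfc_id' ℝ a, ← hG]
    have h2 : (1 : E) - (η : ℂ) • (G * G) = cfc (fun t : ℝ => 1 - η * (gf η t * gf η t)) a := by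
      rw [cfc_sub (R := ℝ) (fun _ => 1) (fun t => η * (gf η t * gf η t)) a (by fun_prop)
        ((continuous_const.mul (hc.mul hc)).continuousOn),
        cfc_const_one ℝ a, cfc_const_mul (R := ℝ) _ (fun t => gf η t * gf η t) a
          ((hc.mul hc).continuousOn),
        cfc_mul (R := ℝ) (gf η) (gf η) a hc.continuousOn hc.continuousOn, ← hG, real_smul_eq]
    rw [h1, h2]
    exact cfc_congr fun t ht => gf_id hη t (hspa t ht)
  have e4 : K * K * θ * θ = cfc (fun t : ℝ => kf δ t * kf δ t * t * t) θ := by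
    have hc := kf_cont hδ
    rw [cfc_mul (R := ℝ) (fun t => kf δ t * kf δ t * t) (fun t => t) θ
      (((hc.mul hc).mul continuous_id).continuousOn) (by fun_prop),
      cfc_mul (R := ℝ) (fun t => kf δ t * kf δ t) (fun t => t) θ
      ((hc.mul hc).continuousOn) (by fun_prop),
      cfc_mul (R := ℝ) (kf δ) (kf δ) θ hc.continuousOn hc.continuousOn, cfc_id' ℝ θ, ← hK]
  obtain ⟨W, hW⟩ : ∃ W : E, W = cfc (fun t : ℝ => kf δ t * kf δ t * t * t) θ := ⟨_, rfl⟩
  have hwc : Continuous (fun t : ℝ => kf δ t * kf δ t * t * t) := by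
    have hc := kf_cont hδ
    exact ((hc.mul hc).mul continuous_id).mul continuous_id
  have hW1 : Pos (1 - W) := by
    have h1 : (1 : E) - W = cfc (fun t : ℝ => 1 - kf δ t * kf δ t * t * t) θ := by
      rw [cfc_sub (R := ℝ) _ _ θ (by fun_prop) hwc.continuousOn, cfc_const_one ℝ θ, ← hW]
    rw [pos_iff, h1]
    refine cfc_nonneg fun t ht => ?_
    have := (wf_bounds hδ t (hsp0 t ht)).2.1
    linarith [hsp1 t ht]
  have hW2 : ‖W - θ‖ ≤ δ := by
    have h1 : W - θ = cfc (fun t : ℝ => kf δ t * kf δ t * t * t - t) θ := by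
      rw [cfc_sub (R := ℝ) _ _ θ hwc.continuousOn (by fun_prop), cfc_id' ℝ θ, ← hW]
    rw [h1]
    refine norm_cfc_le hδ.le fun t ht => ?_
    obtain ⟨b1, b2, b3⟩ := wf_bounds hδ t (hsp0 t ht)
    rw [Real.norm_eq_abs, abs_le]
    constructor <;> linarith
  -- products of the elements
  have hst : ∀ i, star (K * ψ 0 i) = ψ i 0 * K := fun i => by
    rw [star_mul, hMS.st, sK]
  have hstar : ∀ i, star (K * ψ 0 i) * (K * ψ 0 i) = K * K * (θ * ψ i i) := fun i => by
    rw [hst]
    calc ψ i 0 * K * (K * ψ 0 i) = (ψ i 0 * K) * K * ψ 0 i := by simp only [mul_assoc]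
      _ = (K * ψ i 0) * K * ψ 0 i := by rw [(cK i 0).eq]
      _ = K * (ψ i 0 * K) * ψ 0 i := by simp only [mul_assoc]
      _ = K * (K * ψ i 0) * ψ 0 i := by rw [(cK i 0).eq]
      _ = K * K * (ψ i 0 * ψ 0 i) := by simp only [mul_assoc]
      _ = _ := by rw [hMS.mul]
  have hsum : ∑ i, star (K * ψ 0 i) * (K * ψ 0 i) = W := by
    rw [Finset.sum_congr rfl fun i _ => hstar i, ← Finset.mul_sum, ← Finset.mul_sum, hMS.sum, hW,
      ← e4]
    simp only [mul_assoc]
  have hYY : star T * T = a := ha.symm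
  have hsts : star (T * G * V) * (T * G * V) = (1 - θ) - (η : ℂ) • (star (G * V) * (G * V)) := by
    calc star (T * G * V) * (T * G * V) = V * (G * (star T * T) * G) * V := by
          simp only [star_mul, sV, sG, mul_assoc]
      _ = V * (1 - (η : ℂ) • (G * G)) * V := by rw [hYY, e3]
      _ = V * V - (η : ℂ) • (V * (G * G) * V) := by
          rw [mul_sub, sub_mul, mul_one, mul_smul_comm, smul_mul_assoc]
      _ = _ := by
          rw [e2, star_mul, sV, sG]; simp only [mul_assoc]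
  have hYn : ‖star (G * V) * (G * V)‖ ≤ 1 / ρ := by
    have h1 : Pos (1 - (ρ : ℂ) • (star (V * G) * (V * G))) := by
      have h2 := hT.conj G
      rw [sG, ← ha] at h2
      have h3 : Pos ((η : ℂ) • (star G * G)) := (pos_star_mul G).smul hη.le
      have h4 := h2.add h3
      have h5 : G * (a - (ρ : ℂ) • (1 - θ)) * G + (η : ℂ) • (star G * G)
          = 1 - (ρ : ℂ) • (star (V * G) * (V * G)) := by
        rw [mul_sub, sub_mul, e3, sG, star_mul, sV, sG]
        have h6 : G * V * (V * G) = G * (1 - θ) * G := by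
          rw [← e2]; simp only [mul_assoc]
        rw [h6, mul_smul_comm, smul_mul_assoc]
        abel
      rwa [h5] at h4
    have h2 : Pos (((1 / ρ : ℝ) : ℂ) • (star (1 : E) * 1) - star (V * G) * (V * G)) := by
      have h3 := h1.smul (r := 1 / ρ) (by positivity)
      rw [smul_sub, smul_smul, ← Complex.ofReal_mul, one_div_mul_cancel hρ.ne',
        Complex.ofReal_one, one_smul] at h3
      rwa [star_one, one_mul]
    have h3 := norm_sq_le_of_pos (by positivity) h2
    have h4 : ‖(1 : E)‖ ^ 2 ≤ 1 := by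
      have := norm_one_le' (E := E)
      have h0 := norm_nonneg (1 : E)
      nlinarith
    have h5 : ‖G * V‖ = ‖V * G‖ := by
      rw [← norm_star (V * G), star_mul, sV, sG]
    rw [CStarRing.norm_star_mul_self, h5, ← pow_two]
    refine h3.trans ?_
    have : 0 < 1 / ρ := by positivity
    nlinarith
  refine ⟨fun i => K * ψ 0 i, T * G * V, ?_, ?_⟩
  · refine ⟨fun i => ?_, ?_, ?_, fun i => ?_, fun i j hij => ?_, ?_, ?_⟩
    · -- norm of c i
      apply norm_le_one_of_pos
      have h1 : 1 - star (K * ψ 0 i) * (K * ψ 0 i) = (1 - W) +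
          ∑ j ∈ Finset.univ.erase i, star (K * ψ 0 j) * (K * ψ 0 j) := by
        rw [← hsum, ← Finset.add_sum_erase Finset.univ _ (Finset.mem_univ i)]
        abel
      rw [h1]
      exact hW1.add (Pos.sum _ _ fun j _ => pos_star_mul _)
    · apply norm_le_one_of_pos
      rw [hsts]
      have h1 : 1 - (1 - θ - (η : ℂ) • (star (G * V) * (G * V)))
          = θ + (η : ℂ) • (star (G * V) * (G * V)) := by abel
      rw [h1]
      exact hMS.pos.add ((pos_star_mul _).smul hη.le)
    · -- positivity of c 0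
      refine ⟨H2 * ψ 0 0, ?_⟩
      rw [star_mul, hMS.st, sH2]
      calc K * ψ 0 0 = H2 * H2 * (θ * ψ 0 0) := by rw [← e1]; simp only [mul_assoc]
        _ = H2 * H2 * (ψ 0 0 * ψ 0 0) := by rw [hMS.mul]
        _ = H2 * (H2 * ψ 0 0) * ψ 0 0 := by simp only [mul_assoc]
        _ = H2 * (ψ 0 0 * H2) * ψ 0 0 := by rw [(cH2 0 0).eq]
        _ = (H2 * ψ 0 0) * H2 * ψ 0 0 := by simp only [mul_assoc]
        _ = (ψ 0 0 * H2) * H2 * ψ 0 0 := by rw [(cH2 0 0).eq]
        _ = _ := by simp only [mul_assoc]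
    · -- diag
      show K * ψ 0 i * star (K * ψ 0 i) = K * ψ 0 0 * (K * ψ 0 0)
      rw [hst]
      calc K * ψ 0 i * (ψ i 0 * K) = K * (ψ 0 i * ψ i 0) * K := by simp only [mul_assoc]
        _ = K * (ψ 0 0 * ψ 0 0) * K := by rw [hMS.mul, hMS.mul]
        _ = K * ψ 0 0 * (ψ 0 0 * K) := by simp only [mul_assoc]
        _ = K * ψ 0 0 * (K * ψ 0 0) := by rw [(cK 0 0).eq]
    · show K * ψ 0 i * star (K * ψ 0 j) = 0
      rw [hst]
      calc K * ψ 0 i * (ψ j 0 * K) = K * (ψ 0 i * ψ j 0) * K := by simp only [mul_assoc]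
        _ = 0 := by rw [hMS.orth _ _ _ _ hij]; simp
    · rw [hsts, hsum]
      have h1 : 1 - θ - (η : ℂ) • (star (G * V) * (G * V)) + W - 1
          = (W - θ) - (η : ℂ) • (star (G * V) * (G * V)) := by abel
      rw [h1]
      refine (norm_sub_le _ _).trans ?_
      rw [norm_smul, Complex.norm_real, Real.norm_eq_abs, abs_of_pos hη]
      have h2 : η * ‖star (G * V) * (G * V)‖ ≤ η * (1 / ρ) := by gcongr
      have h3 : η * (1 / ρ) = η / ρ := by ring
      linarith
    · show K * ψ 0 0 * (T * G * V) = T * G * V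
      have h1 : K * T = T := by
        rw [hK, cfc_fix hθ hθT _ (kf_cont hδ), kf_one hδ1, one_smul]
      calc K * ψ 0 0 * (T * G * V) = K * (ψ 0 0 * T) * G * V := by simp only [mul_assoc]
        _ = T * G * V := by rw [hψT, h1]
  · intro x hx hxT
    have cx : Commute θ x := comm_theta hMS hx
    have cxK : K * x = x * K := by
      rw [hK]; exact (cx.cfc_real _).eq
    have cxV : V * x = x * V := by
      rw [hV]; exact (cx.cfc_real _).eq
    have cxa : Commute a x := by
      show a * x = x * a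
      rw [ha]
      calc star T * T * x = star T * (T * x) := by rw [mul_assoc]
        _ = star T * (x * T) := by rw [hxT.1]
        _ = (star T * x) * T := by rw [mul_assoc]
        _ = (x * star T) * T := by rw [hxT.2]
        _ = _ := by rw [mul_assoc]
    have cxG : G * x = x * G := by
      rw [hG]; exact (cxa.cfc_real _).eq
    refine ⟨fun i => ⟨?_, ?_⟩, ?_, ?_⟩
    · show x * (K * ψ 0 i) = K * ψ 0 i * x
      rw [← mul_assoc, ← cxK, mul_assoc, hx, mul_assoc]
    · show x * star (K * ψ 0 i) = star (K * ψ 0 i) * x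
      rw [hst, ← mul_assoc, hx, mul_assoc, ← cxK, mul_assoc]
    · calc x * (T * G * V) = (x * T) * G * V := by simp only [mul_assoc]
        _ = T * (x * G) * V := by rw [hxT.1]; simp only [mul_assoc]
        _ = T * G * (x * V) := by rw [← cxG]; simp only [mul_assoc]
        _ = T * G * V * x := by rw [← cxV]; simp only [mul_assoc]
    · have h1 : star (T * G * V) = V * G * star T := by
        simp only [star_mul, sV, sG, mul_assoc]
      rw [h1]
      calc x * (V * G * star T) = (x * V) * G * star T := by simp only [mul_assoc]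
        _ = V * (x * G) * star T := by rw [← cxV]; simp only [mul_assoc]
        _ = V * G * (x * star T) := by rw [← cxG]; simp only [mul_assoc]
        _ = V * G * star T * x := by rw [hxT.2]; simp only [mul_assoc]

end Pool.Agent.N749.DT
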