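import Pool.Agent.N749.DT.FINXa
import Pool.Agent.N299.DT.Stm2

/-!
Project DT (MP_fb67b4_an), task FINX: exact Rørdam–Winter elements.
-/

set_option autoImplicit false

noncomputable section

namespace Pool.Agent.N749.DT

open Pool.Agent.N299 Pool.Agent.N299.DT Filter Topology

variable {E : Type} [CStarAlgebra E]

/-- the parameters -/
def dl (m : ℕ) : ℝ := 1 / ((m : ℝ) + 1)

lemma dl_pos (m : ℕ) : 0 < dl m := by unfold dl; positivity

lemma dl_le_one (m : ℕ) : dl m ≤ 1 := by
  unfold dl
  rw [div_le_one (by positivity)]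
  have : (0 : ℝ) ≤ m := Nat.cast_nonneg m
  linarith

lemma dl_anti {m n : ℕ} (h : m ≤ n) : dl n ≤ dl m := by
  unfold dl
  have : (m : ℝ) ≤ n := by exact_mod_cast h
  gcongr

lemma dl_tendsto : Tendsto dl atTop (𝓝 0) := tendsto_one_div_add_atTop_nhds_zero_nat

lemma sqrt_dl_tendsto : Tendsto (fun m => Real.sqrt (dl m)) atTop (𝓝 0) := by
  have := (Real.continuous_sqrt.tendsto 0).comp dl_tendsto
  rwa [Real.sqrt_zero] at this

lemma cel_sub {N : ℕ} (θ : E) (ψ : Fin (N + 1) → Fin (N + 1) → E) {f g : ℝ → ℝ}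
    (hf : Continuous f) (hg : Continuous g) (i : Fin (N + 1)) :
    cel θ ψ f i - cel θ ψ g i = cel θ ψ (fun t => f t - g t) i := by
  unfold cel
  rw [cfc_sub (R := ℝ) f g θ hf.continuousOn hg.continuousOn, sub_mul]

lemma sel_sub (θ T : E) {f g : ℝ → ℝ} (hf : Continuous f) (hg : Continuous g) :
    sel θ T f - sel θ T g = sel θ T (fun t => f t - g t) := by
  unfold sel
  rw [cfc_sub (R := ℝ) f g _ hf.continuousOn hg.continuousOn, mul_sub, sub_mul]

theorem t_FINX : S_FINX := by
  intro N E _ θ ψ T ρ hρ hMS hT hψT hθT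
  have hrel := fun m : ℕ => fin_rel hρ hMS hT hψT hθT (dl_pos m) (dl_le_one m) (dl_pos m)
  have hck : ∀ m, Continuous (kf (dl m)) := fun m => kf_cont (dl_pos m)
  have hcg : ∀ m, Continuous (gf (dl m)) := fun m => gf_cont (dl_pos m)
  have hC : ∀ i, CauchySeq (fun m => cel θ ψ (kf (dl m)) i) := by
    intro i
    refine cauchySeq_of_le_tendsto_0 (fun n => Real.sqrt (dl n) + Real.sqrt (dl n)) ?_ ?_
    · intro n m k hn hm
      rw [dist_eq_norm, cel_sub θ ψ (hck n) (hck m)]
      refine cel_norm hMS ((hck n).sub (hck m)) (by positivity) (fun t h0 _ => ?_) i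
      have h1 := kf_sqrt (dl_pos n) t h0
      have h2 := kf_sqrt (dl_pos m) t h0
      have h3 : Real.sqrt (dl n) ≤ Real.sqrt (dl k) := Real.sqrt_le_sqrt (dl_anti hn)
      have h4 : Real.sqrt (dl m) ≤ Real.sqrt (dl k) := Real.sqrt_le_sqrt (dl_anti hm)
      have h5 : (kf (dl n) t - kf (dl m) t) * t = (kf (dl n) t * t - Real.sqrt t)
          - (kf (dl m) t * t - Real.sqrt t) := by ring
      show |(kf (dl n) t - kf (dl m) t) * t| ≤ _
      rw [h5]
      rw [abs_le] at h1 h2 ⊢
      constructor <;> linarith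
    · simpa using sqrt_dl_tendsto.add sqrt_dl_tendsto
  have hS : CauchySeq (fun m => sel θ T (gf (dl m))) := by
    refine cauchySeq_of_le_tendsto_0
      (fun n => Real.sqrt (1 / ρ) * (Real.sqrt (dl n) + Real.sqrt (dl n))) ?_ ?_
    · intro n m k hn hm
      rw [dist_eq_norm, sel_sub θ T (hcg n) (hcg m)]
      have h0 := sel_norm hMS hρ hT ((hcg n).sub (hcg m))
        (C := Real.sqrt (dl k) + Real.sqrt (dl k)) (by positivity) (fun t h0 => by
          have h1 := gf_sqrt (dl_pos n) t h0
          have h2 := gf_sqrt (dl_pos m) t h0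
          have h3 : Real.sqrt (dl n) ≤ Real.sqrt (dl k) := Real.sqrt_le_sqrt (dl_anti hn)
          have h4 : Real.sqrt (dl m) ≤ Real.sqrt (dl k) := Real.sqrt_le_sqrt (dl_anti hm)
          have h5 : (gf (dl n) t - gf (dl m) t) * t = (gf (dl n) t * t - Real.sqrt t)
              - (gf (dl m) t * t - Real.sqrt t) := by ring
          show |(gf (dl n) t - gf (dl m) t) * t| ≤ _
          rw [h5]
          rw [abs_le] at h1 h2 ⊢
          constructor <;> linarith)
      have h5 : 1 / ρ * (Real.sqrt (dl k) + Real.sqrt (dl k)) ^ 2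
          = (Real.sqrt (1 / ρ) * (Real.sqrt (dl k) + Real.sqrt (dl k))) ^ 2 := by
        rw [mul_pow, Real.sq_sqrt (by positivity)]
      rw [h5] at h0
      exact (abs_le_of_sq_le_sq' h0 (by positivity)).2
    · have := (sqrt_dl_tendsto.add sqrt_dl_tendsto).const_mul (Real.sqrt (1 / ρ))
      simpa using this
  choose c hc using fun i => cauchySeq_tendsto_of_complete (hC i)
  obtain ⟨s, hs⟩ := cauchySeq_tendsto_of_complete hS
  have hcs : ∀ i, Tendsto (fun m => star (cel θ ψ (kf (dl m)) i)) atTop (𝓝 (star (c i))) :=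
    fun i => (continuous_star.tendsto _).comp (hc i)
  have hss : Tendsto (fun m => star (sel θ T (gf (dl m)))) atTop (𝓝 (star s)) :=
    (continuous_star.tendsto _).comp hs
  refine ⟨c, s, ?_, ?_⟩
  · refine ⟨fun i => ?_, ?_, ?_, fun i => ?_, fun i j hij => ?_, ?_, ?_⟩
    · exact le_of_tendsto (hc i).norm (Eventually.of_forall fun m => (hrel m).1.nc i)
    · exact le_of_tendsto hs.norm (Eventually.of_forall fun m => (hrel m).1.ns)
    · exact isClosed_pos.mem_of_tendsto (hc 0) (Eventually.of_forall fun m => (hrel m).1.pos)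
    · refine tendsto_nhds_unique ((hc i).mul (hcs i)) ?_
      have := (hc 0).mul (hc 0)
      refine this.congr fun m => ?_
      exact ((hrel m).1.diag i).symm
    · refine tendsto_nhds_unique ((hc i).mul (hcs j)) ?_
      refine tendsto_const_nhds.congr fun m => ?_
      exact ((hrel m).1.orth i j hij).symm
    · have h1 : Tendsto (fun m => ‖star (sel θ T (gf (dl m))) * sel θ T (gf (dl m)) +
          ∑ i, star (cel θ ψ (kf (dl m)) i) * cel θ ψ (kf (dl m)) i - 1‖) atTop
          (𝓝 ‖star s * s + ∑ i, star (c i) * c i - 1‖) :=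
        (((hss.mul hs).add (tendsto_finsetSum _ fun i _ => (hcs i).mul (hc i))).sub
          tendsto_const_nhds).norm
      have h2 : Tendsto (fun m => dl m + dl m / ρ) atTop (𝓝 0) := by
        simpa using dl_tendsto.add (dl_tendsto.div_const ρ)
      exact le_of_tendsto_of_tendsto' h1 h2 fun m => (hrel m).1.one
    · exact tendsto_nhds_unique ((hc 0).mul hs) (hs.congr fun m => (hrel m).1.fix.symm)
  · intro x hx hxT
    have h1 := fun m => (hrel m).2 x hx hxT
    refine ⟨fun i => ⟨?_, ?_⟩, ?_, ?_⟩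
    · exact tendsto_nhds_unique ((hc i).const_mul x)
        (((hc i).mul_const x).congr fun m => ((h1 m).1 i).1.symm)
    · exact tendsto_nhds_unique ((hcs i).const_mul x)
        (((hcs i).mul_const x).congr fun m => ((h1 m).1 i).2.symm)
    · exact tendsto_nhds_unique (hs.const_mul x)
        ((hs.mul_const x).congr fun m => (h1 m).2.1.symm)
    · exact tendsto_nhds_unique (hss.const_mul x)
        ((hss.mul_const x).congr fun m => (h1 m).2.2.symm)

end Pool.Agent.N749.DT
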