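import Pool.Agent.N749.DT.FIN

/-!
Project DT (MP_fb67b4_an), task FINX: explicit relations and Cauchy estimates.
-/

set_option autoImplicit false

noncomputable section

namespace Pool.Agent.N749.DT

open Pool.Agent.N299 Pool.Agent.N299.DT Filter Topology

variable {E : Type} [CStarAlgebra E]

/-- the elements `c_i` -/
def cel {N : ℕ} (θ : E) (ψ : Fin (N + 1) → Fin (N + 1) → E) (f : ℝ → ℝ) (i : Fin (N + 1)) : E :=
  cfc f θ * ψ 0 i

/-- the element `s` -/
def sel (θ T : E) (g : ℝ → ℝ) : E :=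
  T * cfc g (star T * T) * cfc (fun t : ℝ => Real.sqrt (1 - t)) θ

theorem fin_rel {N : ℕ} {θ : E} {ψ : Fin (N + 1) → Fin (N + 1) → E} {T : E} {ρ : ℝ} (hρ : 0 < ρ)
    (hMS : MS θ ψ) (hT : Pos (star T * T - (ρ : ℂ) • (1 - θ))) (hψT : ψ 0 0 * T = T)
    (hθT : θ * T = T) {δ η : ℝ} (hδ : 0 < δ) (hδ1 : δ ≤ 1) (hη : 0 < η) :
    RW (δ + η / ρ) (cel θ ψ (kf δ)) (sel θ T (gf η)) ∧
    ∀ x, (∀ i j, x * ψ i j = ψ i j * x) → (x * T = T * x ∧ x * star T = star T * x) →
      Cm x (cel θ ψ (kf δ)) ∧ x * sel θ T (gf η) = sel θ T (gf η) * x ∧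
        x * star (sel θ T (gf η)) = star (sel θ T (gf η)) * x := by
  let _ : PartialOrder E := CStarAlgebra.spectralOrder E
  let _ : StarOrderedRing E := CStarAlgebra.spectralOrderedRing E
  have hθ : IsSelfAdjoint θ := hMS.pos.sa
  have hθ0 : 0 ≤ θ := (pos_iff θ).1 hMS.pos
  have hθ1 : θ ≤ 1 := sub_nonneg.1 ((pos_iff _).1 hMS.le)
  have hsp0 : ∀ t ∈ spectrum ℝ θ, 0 ≤ t := fun t ht => spectrum_nonneg_of_nonneg hθ0 ht
  have hsp1 : ∀ t ∈ spectrum ℝ θ, t ≤ 1 := by
    have h1 : θ ≤ algebraMap ℝ E 1 := by rwa [map_one]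
    exact (le_algebraMap_iff_spectrum_le hθ).1 h1
  -- the elements
  obtain ⟨H2, hH2⟩ : ∃ H2 : E, H2 = cfc (fun t => Real.sqrt (hf δ t)) θ := ⟨_, rfl⟩
  obtain ⟨K, hK⟩ : ∃ K : E, K = cfc (kf δ) θ := ⟨_, rfl⟩
  obtain ⟨V, hV⟩ : ∃ V : E, V = cfc (fun t : ℝ => Real.sqrt (1 - t)) θ := ⟨_, rfl⟩
  obtain ⟨a, ha⟩ : ∃ a : E, a = star T * T := ⟨_, rfl⟩
  obtain ⟨G, hG⟩ : ∃ G : E, G = cfc (gf η) a := ⟨_, rfl⟩
  have hasa : IsSelfAdjoint a := by rw [ha]; exact IsSelfAdjoint.star_mul_self T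
  have ha0 : 0 ≤ a := by rw [ha]; exact star_mul_self_nonneg T
  have hspa : ∀ t ∈ spectrum ℝ a, 0 ≤ t := fun t ht => spectrum_nonneg_of_nonneg ha0 ht
  have sH2 : star H2 = H2 := by rw [hH2]; exact cfc_sa _ _
  have sK : star K = K := by rw [hK]; exact cfc_sa _ _
  have sV : star V = V := by rw [hV]; exact cfc_sa _ _
  have sG : star G = G := by rw [hG]; exact cfc_sa _ _
  -- commutation with the matrix units
  have cK : ∀ i j, Commute K (ψ i j) := fun i j => by
    rw [hK]; exact (ms_comm hMS i j).cfc_real _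
  have cH2 : ∀ i j, Commute H2 (ψ i j) := fun i j => by
    rw [hH2]; exact (ms_comm hMS i j).cfc_real _
  have cθK : Commute θ K := by
    rw [hK]; exact ((Commute.refl θ).cfc_real _).symm
  -- identities
  have hsqrt : Continuous (fun t => Real.sqrt (hf δ t)) := (hf_cont hδ).sqrt
  have e1 : H2 * H2 * θ = K := by
    rw [hH2, hK]
    nth_rewrite 3 [← cfc_id' ℝ θ]
    rw [← cfc_mul (R := ℝ) _ _ θ hsqrt.continuousOn hsqrt.continuousOn,
      ← cfc_mul (R := ℝ) (fun t => Real.sqrt (hf δ t) * Real.sqrt (hf δ t)) (fun t => t) θ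
        (hsqrt.mul hsqrt).continuousOn (by fun_prop)]
    refine cfc_congr fun t _ => ?_
    show Real.sqrt (hf δ t) * Real.sqrt (hf δ t) * t = kf δ t
    rw [Real.mul_self_sqrt (hf_pos hδ t).le]
    rfl
  have e2 : V * V = 1 - θ := by
    have hc : Continuous (fun t : ℝ => Real.sqrt (1 - t)) := by fun_prop
    rw [hV, ← cfc_mul (R := ℝ) _ _ θ hc.continuousOn hc.continuousOn]
    have h1 : (1 : E) - θ = cfc (fun t : ℝ => 1 - t) θ := by
      rw [cfc_sub (R := ℝ) _ _ θ (by fun_prop) (by fun_prop), cfc_id' ℝ θ, cfc_const_one ℝ θ]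
    rw [h1]
    refine cfc_congr fun t ht => ?_
    show Real.sqrt (1 - t) * Real.sqrt (1 - t) = 1 - t
    rw [Real.mul_self_sqrt]
    linarith [hsp1 t ht]
  have e3 : G * a * G = 1 - (η : ℂ) • (G * G) := by
    have hc := gf_cont hη
    have h1 : G * a * G = cfc (fun t : ℝ => gf η t * t * gf η t) a := by
      rw [cfc_mul (R := ℝ) (fun t => gf η t * t) (gf η) a ((hc.mul continuous_id).continuousOn)
        hc.continuousOn, cfc_mul (R := ℝ) (gf η) (fun t => t) a hc.continuousOn (by fun_prop),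
        cfc_id' ℝ a, ← hG]
    have h2 : (1 : E) - (η : ℂ) • (G * G) = cfc (fun t : ℝ => 1 - η * (gf η t * gf η t)) a := by
      rw [cfc_sub (R := ℝ) (fun _ => 1) (fun t => η * (gf η t * gf η t)) a (by fun_prop)
        ((continuous_const.mul (hc.mul hc)).continuousOn),
        cfc_const_one ℝ a, cfc_const_mul (R := ℝ) _ (fun t => gf η t * gf η t) a
          ((hc.mul hc).continuousOn),
        cfc_mul (R := ℝ) (gf η) (gf η) a hc.continuousOn hc.continuousOn, ← hG, real_smul_eq]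
    rw [h1, h2]
    exact cfc_congr fun t ht => gf_id hη t (hspa t ht)
  have e4 : K * K * θ * θ = cfc (fun t : ℝ => kf δ t * kf δ t * t * t) θ := by
    have hc := kf_cont hδ
    rw [cfc_mul (R := ℝ) (fun t => kf δ t * kf δ t * t) (fun t => t) θ
      (((hc.mul hc).mul continuous_id).continuousOn) (by fun_prop),
      cfc_mul (R := ℝ) (fun t => kf δ t * kf δ t) (fun t => t) θ
      ((hc.mul hc).continuousOn) (by fun_prop),
      cfc_mul (R := ℝ) (kf δ) (kf δ) θ hc.continuousOn hc.continuousOn, cfc_id' ℝ θ, ← hK]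
  obtain ⟨W, hW⟩ : ∃ W : E, W = cfc (fun t : ℝ => kf δ t * kf δ t * t * t) θ := ⟨_, rfl⟩
  have hwc : Continuous (fun t : ℝ => kf δ t * kf δ t * t * t) := by
    have hc := kf_cont hδ
    exact ((hc.mul hc).mul continuous_id).mul continuous_id
  have hW1 : Pos (1 - W) := by
    have h1 : (1 : E) - W = cfc (fun t : ℝ => 1 - kf δ t * kf δ t * t * t) θ := by
      rw [cfc_sub (R := ℝ) _ _ θ (by fun_prop) hwc.continuousOn, cfc_const_one ℝ θ, ← hW]
    rw [pos_iff, h1]
    refine cfc_nonneg fun t ht => ?_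
    have := (wf_bounds hδ t (hsp0 t ht)).2.1
    linarith [hsp1 t ht]
  have hW2 : ‖W - θ‖ ≤ δ := by
    have h1 : W - θ = cfc (fun t : ℝ => kf δ t * kf δ t * t * t - t) θ := by
      rw [cfc_sub (R := ℝ) _ _ θ hwc.continuousOn (by fun_prop), cfc_id' ℝ θ, ← hW]
    rw [h1]
    refine norm_cfc_le hδ.le fun t ht => ?_
    obtain ⟨b1, b2, b3⟩ := wf_bounds hδ t (hsp0 t ht)
    rw [Real.norm_eq_abs, abs_le]
    constructor <;> linarith
  -- products of the elements
  have hst : ∀ i, star (K * ψ 0 i) = ψ i 0 * K := fun i => by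
    rw [star_mul, hMS.st, sK]
  have hstar : ∀ i, star (K * ψ 0 i) * (K * ψ 0 i) = K * K * (θ * ψ i i) := fun i => by
    rw [hst]
    calc ψ i 0 * K * (K * ψ 0 i) = (ψ i 0 * K) * K * ψ 0 i := by simp only [mul_assoc]
      _ = (K * ψ i 0) * K * ψ 0 i := by rw [(cK i 0).eq]
      _ = K * (ψ i 0 * K) * ψ 0 i := by simp only [mul_assoc]
      _ = K * (K * ψ i 0) * ψ 0 i := by rw [(cK i 0).eq]
      _ = K * K * (ψ i 0 * ψ 0 i) := by simp only [mul_assoc]
      _ = _ := by rw [hMS.mul]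
  have hsum : ∑ i, star (K * ψ 0 i) * (K * ψ 0 i) = W := by
    rw [Finset.sum_congr rfl fun i _ => hstar i, ← Finset.mul_sum, ← Finset.mul_sum, hMS.sum, hW,
      ← e4]
    simp only [mul_assoc]
  have hYY : star T * T = a := ha.symm
  have hsts : star (T * G * V) * (T * G * V) = (1 - θ) - (η : ℂ) • (star (G * V) * (G * V)) := by
    calc star (T * G * V) * (T * G * V) = V * (G * (star T * T) * G) * V := by
          simp only [star_mul, sV, sG, mul_assoc]
      _ = V * (1 - (η : ℂ) • (G * G)) * V := by rw [hYY, e3]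
      _ = V * V - (η : ℂ) • (V * (G * G) * V) := by
          rw [mul_sub, sub_mul, mul_one, mul_smul_comm, smul_mul_assoc]
      _ = _ := by
          rw [e2, star_mul, sV, sG]; simp only [mul_assoc]
  have hYn : ‖star (G * V) * (G * V)‖ ≤ 1 / ρ := by
    have h1 : Pos (1 - (ρ : ℂ) • (star (V * G) * (V * G))) := by
      have h2 := hT.conj G
      rw [sG, ← ha] at h2
      have h3 : Pos ((η : ℂ) • (star G * G)) := (pos_star_mul G).smul hη.le
      have h4 := h2.add h3
      have h5 : G * (a - (ρ : ℂ) • (1 - θ)) * G + (η : ℂ) • (star G * G)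
          = 1 - (ρ : ℂ) • (star (V * G) * (V * G)) := by
        rw [mul_sub, sub_mul, e3, sG, star_mul, sV, sG]
        have h6 : G * V * (V * G) = G * (1 - θ) * G := by
          rw [← e2]; simp only [mul_assoc]
        rw [h6, mul_smul_comm, smul_mul_assoc]
        abel
      rwa [h5] at h4
    have h2 : Pos (((1 / ρ : ℝ) : ℂ) • (star (1 : E) * 1) - star (V * G) * (V * G)) := by
      have h3 := h1.smul (r := 1 / ρ) (by positivity)
      rw [smul_sub, smul_smul, ← Complex.ofReal_mul, one_div_mul_cancel hρ.ne',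
        Complex.ofReal_one, one_smul] at h3
      rwa [star_one, one_mul]
    have h3 := norm_sq_le_of_pos (by positivity) h2
    have h4 : ‖(1 : E)‖ ^ 2 ≤ 1 := by
      have := norm_one_le' (E := E)
      have h0 := norm_nonneg (1 : E)
      nlinarith
    have h5 : ‖G * V‖ = ‖V * G‖ := by
      rw [← norm_star (V * G), star_mul, sV, sG]
    rw [CStarRing.norm_star_mul_self, h5, ← pow_two]
    refine h3.trans ?_
    have : 0 < 1 / ρ := by positivity
    nlinarith
  have hcel : cel θ ψ (kf δ) = fun i => K * ψ 0 i := by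
    funext i
    rw [cel, ← hK]
  have hsel : sel θ T (gf η) = T * G * V := by
    rw [sel, ← ha, ← hG, ← hV]
  rw [hcel, hsel]
  refine ⟨?_, ?_⟩
  · refine ⟨fun i => ?_, ?_, ?_, fun i => ?_, fun i j hij => ?_, ?_, ?_⟩
    · -- norm of c i
      apply norm_le_one_of_pos
      have h1 : 1 - star (K * ψ 0 i) * (K * ψ 0 i) = (1 - W) +
          ∑ j ∈ Finset.univ.erase i, star (K * ψ 0 j) * (K * ψ 0 j) := by
        rw [← hsum, ← Finset.add_sum_erase Finset.univ _ (Finset.mem_univ i)]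
        abel
      rw [h1]
      exact hW1.add (Pos.sum _ _ fun j _ => pos_star_mul _)
    · apply norm_le_one_of_pos
      rw [hsts]
      have h1 : 1 - (1 - θ - (η : ℂ) • (star (G * V) * (G * V)))
          = θ + (η : ℂ) • (star (G * V) * (G * V)) := by abel
      rw [h1]
      exact hMS.pos.add ((pos_star_mul _).smul hη.le)
    · -- positivity of c 0
      refine ⟨H2 * ψ 0 0, ?_⟩
      rw [star_mul, hMS.st, sH2]
      calc K * ψ 0 0 = H2 * H2 * (θ * ψ 0 0) := by rw [← e1]; simp only [mul_assoc]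
        _ = H2 * H2 * (ψ 0 0 * ψ 0 0) := by rw [hMS.mul]
        _ = H2 * (H2 * ψ 0 0) * ψ 0 0 := by simp only [mul_assoc]
        _ = H2 * (ψ 0 0 * H2) * ψ 0 0 := by rw [(cH2 0 0).eq]
        _ = (H2 * ψ 0 0) * H2 * ψ 0 0 := by simp only [mul_assoc]
        _ = (ψ 0 0 * H2) * H2 * ψ 0 0 := by rw [(cH2 0 0).eq]
        _ = _ := by simp only [mul_assoc]
    · -- diag
      show K * ψ 0 i * star (K * ψ 0 i) = K * ψ 0 0 * (K * ψ 0 0)
      rw [hst]
      calc K * ψ 0 i * (ψ i 0 * K) = K * (ψ 0 i * ψ i 0) * K := by simp only [mul_assoc]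
        _ = K * (ψ 0 0 * ψ 0 0) * K := by rw [hMS.mul, hMS.mul]
        _ = K * ψ 0 0 * (ψ 0 0 * K) := by simp only [mul_assoc]
        _ = K * ψ 0 0 * (K * ψ 0 0) := by rw [(cK 0 0).eq]
    · show K * ψ 0 i * star (K * ψ 0 j) = 0
      rw [hst]
      calc K * ψ 0 i * (ψ j 0 * K) = K * (ψ 0 i * ψ j 0) * K := by simp only [mul_assoc]
        _ = 0 := by rw [hMS.orth _ _ _ _ hij]; simp
    · rw [hsts, hsum]
      have h1 : 1 - θ - (η : ℂ) • (star (G * V) * (G * V)) + W - 1
          = (W - θ) - (η : ℂ) • (star (G * V) * (G * V)) := by abel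
      rw [h1]
      refine (norm_sub_le _ _).trans ?_
      rw [norm_smul, Complex.norm_real, Real.norm_eq_abs, abs_of_pos hη]
      have h2 : η * ‖star (G * V) * (G * V)‖ ≤ η * (1 / ρ) := by gcongr
      have h3 : η * (1 / ρ) = η / ρ := by ring
      linarith
    · show K * ψ 0 0 * (T * G * V) = T * G * V
      have h1 : K * T = T := by
        rw [hK, cfc_fix hθ hθT _ (kf_cont hδ), kf_one hδ1, one_smul]
      calc K * ψ 0 0 * (T * G * V) = K * (ψ 0 0 * T) * G * V := by simp only [mul_assoc]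
        _ = T * G * V := by rw [hψT, h1]
  · intro x hx hxT
    have cx : Commute θ x := comm_theta hMS hx
    have cxK : K * x = x * K := by
      rw [hK]; exact (cx.cfc_real _).eq
    have cxV : V * x = x * V := by
      rw [hV]; exact (cx.cfc_real _).eq
    have cxa : Commute a x := by
      show a * x = x * a
      rw [ha]
      calc star T * T * x = star T * (T * x) := by rw [mul_assoc]
        _ = star T * (x * T) := by rw [hxT.1]
        _ = (star T * x) * T := by rw [mul_assoc]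
        _ = (x * star T) * T := by rw [hxT.2]
        _ = _ := by rw [mul_assoc]
    have cxG : G * x = x * G := by
      rw [hG]; exact (cxa.cfc_real _).eq
    refine ⟨fun i => ⟨?_, ?_⟩, ?_, ?_⟩
    · show x * (K * ψ 0 i) = K * ψ 0 i * x
      rw [← mul_assoc, ← cxK, mul_assoc, hx, mul_assoc]
    · show x * star (K * ψ 0 i) = star (K * ψ 0 i) * x
      rw [hst, ← mul_assoc, hx, mul_assoc, ← cxK, mul_assoc]
    · calc x * (T * G * V) = (x * T) * G * V := by simp only [mul_assoc]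
        _ = T * (x * G) * V := by rw [hxT.1]; simp only [mul_assoc]
        _ = T * G * (x * V) := by rw [← cxG]; simp only [mul_assoc]
        _ = T * G * V * x := by rw [← cxV]; simp only [mul_assoc]
    · have h1 : star (T * G * V) = V * G * star T := by
        simp only [star_mul, sV, sG, mul_assoc]
      rw [h1]
      calc x * (V * G * star T) = (x * V) * G * star T := by simp only [mul_assoc]
        _ = V * (x * G) * star T := by rw [← cxV]; simp only [mul_assoc]
        _ = V * G * (x * star T) := by rw [← cxG]; simp only [mul_assoc]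
        _ = V * G * star T * x := by rw [hxT.2]; simp only [mul_assoc]


lemma kf_sqrt {δ : ℝ} (hδ : 0 < δ) (t : ℝ) (ht : 0 ≤ t) :
    |kf δ t * t - Real.sqrt t| ≤ Real.sqrt δ := by
  have h1 := hf_sq hδ t
  have h2 := hf_pos hδ t
  have hs : Real.sqrt t * Real.sqrt t = t := Real.mul_self_sqrt ht
  have hst := Real.sqrt_nonneg t
  have hkt : kf δ t * t = hf δ t * t ^ 2 := by unfold kf; ring
  rw [hkt]
  rcases le_total δ t with h4 | h4
  · -- equality
    have h3 : hf δ t * t ^ 2 = Real.sqrt t := by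
      have ht0 : 0 < t := lt_of_lt_of_le hδ h4
      have hst0 : 0 < Real.sqrt t := Real.sqrt_pos.2 ht0
      unfold hf
      rw [max_eq_left h4]
      field_simp
      nlinarith
    rw [h3, sub_self, abs_zero]
    exact Real.sqrt_nonneg _
  · have h5 : Real.sqrt t ≤ Real.sqrt δ := Real.sqrt_le_sqrt h4
    have h6 : 0 ≤ hf δ t * t ^ 2 := by positivity
    have h7 : hf δ t * t ^ 2 ≤ Real.sqrt t := by
      have hsd : Real.sqrt δ * Real.sqrt δ = δ := Real.mul_self_sqrt hδ.le
      have hsd0 : 0 < Real.sqrt δ := Real.sqrt_pos.2 hδ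
      unfold hf
      rw [max_eq_right h4, inv_mul_le_iff₀ (by positivity)]
      calc t ^ 2 = t * (Real.sqrt t * Real.sqrt t) := by rw [hs]; ring
        _ ≤ δ * (Real.sqrt δ * Real.sqrt t) := by gcongr
        _ = δ * Real.sqrt δ * Real.sqrt t := by ring
    rw [abs_le]
    constructor <;> linarith

lemma gf_sqrt {η : ℝ} (hη : 0 < η) (t : ℝ) (ht : 0 ≤ t) :
    |gf η t * t - Real.sqrt t| ≤ Real.sqrt η := by
  have hs : Real.sqrt t * Real.sqrt t = t := Real.mul_self_sqrt ht
  have hst := Real.sqrt_nonneg t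
  have h0 : 0 < t + η := by linarith
  have hq : Real.sqrt (t + η) * Real.sqrt (t + η) = t + η := Real.mul_self_sqrt h0.le
  have hq0 : 0 < Real.sqrt (t + η) := Real.sqrt_pos.2 h0
  have he : Real.sqrt η * Real.sqrt η = η := Real.mul_self_sqrt hη.le
  have he0 : 0 < Real.sqrt η := Real.sqrt_pos.2 hη
  have h1 : Real.sqrt t ≤ Real.sqrt (t + η) := Real.sqrt_le_sqrt (by linarith)
  have h2 : Real.sqrt η ≤ Real.sqrt (t + η) := Real.sqrt_le_sqrt (by linarith)
  have h3 : gf η t * t = t / Real.sqrt (t + η) := by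
    unfold gf
    rw [max_eq_left ht]
    field_simp
  rw [h3, abs_le]
  constructor
  · -- √t - √η ≤ t/√(t+η)
    have : (Real.sqrt t - Real.sqrt η) ≤ t / Real.sqrt (t + η) := by
      rw [le_div_iff₀ hq0]
      rcases le_total (Real.sqrt t) (Real.sqrt η) with h4 | h4
      · nlinarith
      · have h5 : Real.sqrt (t + η) ≤ Real.sqrt t + Real.sqrt η := by
          apply Real.sqrt_le_iff.2
          constructor
          · positivity
          · nlinarith
        nlinarith
    linarith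
  · have : t / Real.sqrt (t + η) ≤ Real.sqrt t := by
      rw [div_le_iff₀ hq0]
      nlinarith
    linarith

section norms

variable {N : ℕ} {θ : E} {ψ : Fin (N + 1) → Fin (N + 1) → E}

lemma cel_norm (hMS : MS θ ψ) {f : ℝ → ℝ} (hf : Continuous f) {C : ℝ} (hC : 0 ≤ C)
    (h : ∀ t, 0 ≤ t → t ≤ 1 → |f t * t| ≤ C) (i : Fin (N + 1)) : ‖cel θ ψ f i‖ ≤ C := by
  let _ : PartialOrder E := CStarAlgebra.spectralOrder E
  let _ : StarOrderedRing E := CStarAlgebra.spectralOrderedRing E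
  have hθ : IsSelfAdjoint θ := hMS.pos.sa
  have hθ0 : 0 ≤ θ := (pos_iff θ).1 hMS.pos
  have hθ1 : θ ≤ 1 := sub_nonneg.1 ((pos_iff _).1 hMS.le)
  have hsp0 : ∀ t ∈ spectrum ℝ θ, 0 ≤ t := fun t ht => spectrum_nonneg_of_nonneg hθ0 ht
  have hsp1 : ∀ t ∈ spectrum ℝ θ, t ≤ 1 := by
    have h1 : θ ≤ algebraMap ℝ E 1 := by rwa [map_one]
    exact (le_algebraMap_iff_spectrum_le hθ).1 h1
  obtain ⟨K, hK⟩ : ∃ K : E, K = cfc f θ := ⟨_, rfl⟩
  have sK : star K = K := by rw [hK]; exact cfc_sa _ _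
  have cK : ∀ i j, Commute K (ψ i j) := fun i j => by
    rw [hK]; exact (ms_comm hMS i j).cfc_real _
  have hst : ∀ i, star (K * ψ 0 i) = ψ i 0 * K := fun i => by
    rw [star_mul, hMS.st, sK]
  have hstar : ∀ i, star (K * ψ 0 i) * (K * ψ 0 i) = K * K * (θ * ψ i i) := fun i => by
    rw [hst]
    calc ψ i 0 * K * (K * ψ 0 i) = (ψ i 0 * K) * K * ψ 0 i := by simp only [mul_assoc]
      _ = (K * ψ i 0) * K * ψ 0 i := by rw [(cK i 0).eq]
      _ = K * (ψ i 0 * K) * ψ 0 i := by simp only [mul_assoc]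
      _ = K * (K * ψ i 0) * ψ 0 i := by rw [(cK i 0).eq]
      _ = K * K * (ψ i 0 * ψ 0 i) := by simp only [mul_assoc]
      _ = _ := by rw [hMS.mul]
  have cKθ : Commute K θ := by
    rw [hK]; exact (Commute.refl θ).cfc_real _
  have hsum : ∑ i, star (K * ψ 0 i) * (K * ψ 0 i) = star (K * θ) * (K * θ) := by
    rw [Finset.sum_congr rfl fun i _ => hstar i, ← Finset.mul_sum, ← Finset.mul_sum, hMS.sum,
      star_mul, sK, hθ.star_eq]
    calc K * K * (θ * θ) = K * (K * θ) * θ := by simp only [mul_assoc]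
      _ = K * (θ * K) * θ := by rw [cKθ.eq]
      _ = (K * θ) * (K * θ) := by simp only [mul_assoc]
      _ = (θ * K) * (K * θ) := by rw [cKθ.eq]
  have h1 : Pos (((1 : ℝ) : ℂ) • (star (K * θ) * (K * θ)) - star (K * ψ 0 i) * (K * ψ 0 i)) := by
    rw [Complex.ofReal_one, one_smul, ← hsum, ← Finset.add_sum_erase Finset.univ _
      (Finset.mem_univ i), add_sub_cancel_left]
    exact Pos.sum _ _ fun j _ => pos_star_mul _
  have h2 := norm_sq_le_of_pos zero_le_one h1
  have h3 : ‖K * θ‖ ≤ C := by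
    have h4 : K * θ = cfc (fun t : ℝ => f t * t) θ := by
      rw [cfc_mul (R := ℝ) f (fun t => t) θ hf.continuousOn (by fun_prop), cfc_id' ℝ θ, ← hK]
    rw [h4]
    exact norm_cfc_le hC fun t ht => h t (hsp0 t ht) (hsp1 t ht)
  have h5 := norm_nonneg (K * θ)
  have h6 : cel θ ψ f i = K * ψ 0 i := by rw [cel, ← hK]
  rw [h6]
  rw [one_mul] at h2
  exact (abs_le_of_sq_le_sq' (h2.trans (by gcongr)) hC).2

lemma sel_norm (hMS : MS θ ψ) {T : E} {ρ : ℝ} (hρ : 0 < ρ)
    (hT : Pos (star T * T - (ρ : ℂ) • (1 - θ))) {g : ℝ → ℝ} (hg : Continuous g) {C : ℝ}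
    (hC : 0 ≤ C) (h : ∀ t, 0 ≤ t → |g t * t| ≤ C) :
    ‖sel θ T g‖ ^ 2 ≤ 1 / ρ * C ^ 2 := by
  let _ : PartialOrder E := CStarAlgebra.spectralOrder E
  let _ : StarOrderedRing E := CStarAlgebra.spectralOrderedRing E
  have hθ : IsSelfAdjoint θ := hMS.pos.sa
  have hθ1 : θ ≤ 1 := sub_nonneg.1 ((pos_iff _).1 hMS.le)
  have hsp1 : ∀ t ∈ spectrum ℝ θ, t ≤ 1 := by
    have h1 : θ ≤ algebraMap ℝ E 1 := by rwa [map_one]
    exact (le_algebraMap_iff_spectrum_le hθ).1 h1
  obtain ⟨V, hV⟩ : ∃ V : E, V = cfc (fun t : ℝ => Real.sqrt (1 - t)) θ := ⟨_, rfl⟩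
  obtain ⟨a, ha⟩ : ∃ a : E, a = star T * T := ⟨_, rfl⟩
  obtain ⟨G, hG⟩ : ∃ G : E, G = cfc g a := ⟨_, rfl⟩
  obtain ⟨Q, hQ⟩ : ∃ Q : E, Q = cfc (fun t : ℝ => Real.sqrt t * g t) a := ⟨_, rfl⟩
  have hasa : IsSelfAdjoint a := by rw [ha]; exact IsSelfAdjoint.star_mul_self T
  have ha0 : 0 ≤ a := by rw [ha]; exact star_mul_self_nonneg T
  have hspa : ∀ t ∈ spectrum ℝ a, 0 ≤ t := fun t ht => spectrum_nonneg_of_nonneg ha0 ht
  have sV : star V = V := by rw [hV]; exact cfc_sa _ _
  have sG : star G = G := by rw [hG]; exact cfc_sa _ _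
  have sQ : star Q = Q := by rw [hQ]; exact cfc_sa _ _
  have e2 : V * V = 1 - θ := by
    have hc : Continuous (fun t : ℝ => Real.sqrt (1 - t)) := by fun_prop
    rw [hV, ← cfc_mul (R := ℝ) _ _ θ hc.continuousOn hc.continuousOn]
    have h1 : (1 : E) - θ = cfc (fun t : ℝ => 1 - t) θ := by
      rw [cfc_sub (R := ℝ) _ _ θ (by fun_prop) (by fun_prop), cfc_id' ℝ θ, cfc_const_one ℝ θ]
    rw [h1]
    refine cfc_congr fun t ht => ?_
    show Real.sqrt (1 - t) * Real.sqrt (1 - t) = 1 - t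
    rw [Real.mul_self_sqrt]
    linarith [hsp1 t ht]
  have hcQ : Continuous (fun t : ℝ => Real.sqrt t * g t) := Real.continuous_sqrt.mul hg
  have e3 : G * a * G = Q * Q := by
    have h1 : G * a * G = cfc (fun t : ℝ => g t * t * g t) a := by
      rw [cfc_mul (R := ℝ) (fun t => g t * t) g a ((hg.mul continuous_id).continuousOn)
        hg.continuousOn, cfc_mul (R := ℝ) g (fun t => t) a hg.continuousOn (by fun_prop),
        cfc_id' ℝ a, ← hG]
    rw [h1, hQ, ← cfc_mul (R := ℝ) _ _ a hcQ.continuousOn hcQ.continuousOn]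
    refine cfc_congr fun t ht => ?_
    show g t * t * g t = Real.sqrt t * g t * (Real.sqrt t * g t)
    have := Real.mul_self_sqrt (hspa t ht)
    calc g t * t * g t = g t * (Real.sqrt t * Real.sqrt t) * g t := by rw [this]
      _ = _ := by ring
  have e5 : Q * a * Q = star (cfc (fun t : ℝ => g t * t) a) * cfc (fun t : ℝ => g t * t) a := by
    have hc2 : Continuous (fun t : ℝ => g t * t) := hg.mul continuous_id
    have h1 : Q * a * Q = cfc (fun t : ℝ => Real.sqrt t * g t * t * (Real.sqrt t * g t)) a := by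
      rw [cfc_mul (R := ℝ) (fun t => Real.sqrt t * g t * t) (fun t => Real.sqrt t * g t) a
        ((hcQ.mul continuous_id).continuousOn) hcQ.continuousOn,
        cfc_mul (R := ℝ) (fun t => Real.sqrt t * g t) (fun t => t) a hcQ.continuousOn
        (by fun_prop), cfc_id' ℝ a, ← hQ]
    rw [h1, cfc_sa, ← cfc_mul (R := ℝ) _ _ a hc2.continuousOn hc2.continuousOn]
    refine cfc_congr fun t ht => ?_
    show Real.sqrt t * g t * t * (Real.sqrt t * g t) = g t * t * (g t * t)
    have := Real.mul_self_sqrt (hspa t ht)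
    calc Real.sqrt t * g t * t * (Real.sqrt t * g t)
        = g t * (Real.sqrt t * Real.sqrt t) * (g t * t) := by ring
      _ = _ := by rw [this]
  have h1 : ‖sel θ T g‖ = ‖Q * V‖ := by
    have h2 : star (sel θ T g) * sel θ T g = star (Q * V) * (Q * V) := by
      rw [sel, ← ha, ← hG, ← hV]
      calc star (T * G * V) * (T * G * V) = V * (G * (star T * T) * G) * V := by
            simp only [star_mul, sV, sG, mul_assoc]
        _ = V * (Q * Q) * V := by rw [← ha, e3]
        _ = _ := by simp only [star_mul, sV, sQ, mul_assoc]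
    have h3 := CStarRing.norm_star_mul_self (x := sel θ T g)
    have h4 := CStarRing.norm_star_mul_self (x := Q * V)
    rw [h2, h4] at h3
    have h5 := norm_nonneg (sel θ T g)
    have h6 := norm_nonneg (Q * V)
    nlinarith
  have h2 : ‖Q * V‖ = ‖V * Q‖ := by
    rw [← norm_star (V * Q), star_mul, sV, sQ]
  have h3 : Pos (((1 / ρ : ℝ) : ℂ) • (star (cfc (fun t : ℝ => g t * t) a) *
      cfc (fun t : ℝ => g t * t) a) - star (V * Q) * (V * Q)) := by
    have h4 := hT.conj Q
    rw [sQ, ← ha] at h4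
    have h5 := h4.smul (r := 1 / ρ) (by positivity)
    have h6 : ((1 / ρ : ℝ) : ℂ) • (Q * (a - (ρ : ℂ) • (1 - θ)) * Q)
        = ((1 / ρ : ℝ) : ℂ) • (star (cfc (fun t : ℝ => g t * t) a) *
          cfc (fun t : ℝ => g t * t) a) - star (V * Q) * (V * Q) := by
      rw [← e5, mul_sub, sub_mul, smul_sub, mul_smul_comm, smul_mul_assoc, smul_smul,
        ← Complex.ofReal_mul, one_div_mul_cancel hρ.ne', Complex.ofReal_one, one_smul, star_mul,
        sV, sQ, ← e2]
      simp only [mul_assoc]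
    rwa [h6] at h5
  have h4 := norm_sq_le_of_pos (by positivity) h3
  have h5 : ‖cfc (fun t : ℝ => g t * t) a‖ ≤ C :=
    norm_cfc_le hC fun t ht => h t (hspa t ht)
  rw [h1, h2]
  refine h4.trans ?_
  have h6 := norm_nonneg (cfc (fun t : ℝ => g t * t) a)
  gcongr

end norms

end Pool.Agent.N749.DT
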