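import Pool.Agent.N299.DT.Stm

set_option autoImplicit false

noncomputable section

namespace Pool.Agent.N749.DT

open Pool.Agent.N299 Pool.Agent.N299.DT

variable {E : Type} [CStarAlgebra E]

lemma cfc_fix {x T : E} (hx : IsSelfAdjoint x) (h : x * T = T) (f : ℝ → ℝ) (hf : Continuous f) :
    cfc f x * T = f 1 • T := by
  by_cases hT : T = 0
  · simp [hT]
  have h1 : (1 : ℝ) ∈ spectrum ℝ x := by
    rw [spectrum.mem_iff]
    intro hu
    obtain ⟨u, hu⟩ := hu
    apply hT
    have h2 : (algebraMap ℝ E 1 - x) * T = 0 := by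
      rw [map_one, sub_mul, one_mul, h, sub_self]
    rw [← hu] at h2
    have h3 : ((u⁻¹ : Eˣ) : E) * (u * T) = 0 := by rw [h2, mul_zero]
    rwa [← mul_assoc, Units.inv_mul, one_mul] at h3
  have key : ∀ F : C(spectrum ℝ x, ℝ), cfcHom (p := IsSelfAdjoint) hx F * T = F ⟨1, h1⟩ • T := by
    intro F
    induction F using ContinuousMap.induction_on_of_compact with
    | const r =>
      have : cfcHom (p := IsSelfAdjoint) hx (ContinuousMap.const _ r) = algebraMap ℝ E r := by
        have := AlgHomClass.commutes (cfcHom (p := IsSelfAdjoint) hx) r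
        exact this
      rw [this]
      simp [Algebra.algebraMap_eq_smul_one]
    | id =>
      have : cfcHom (p := IsSelfAdjoint) hx (ContinuousMap.restrict (spectrum ℝ x) (.id ℝ)) = x :=
        cfcHom_id hx
      rw [this, h]
      simp
    | star_id =>
      have : cfcHom (p := IsSelfAdjoint) hx (ContinuousMap.restrict (spectrum ℝ x) (.id ℝ)) = x :=
        cfcHom_id hx
      rw [map_star, this, hx.star_eq, h]
      simp
    | add f g hf hg => rw [map_add, add_mul, hf, hg, ContinuousMap.add_apply, add_smul]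
    | mul f g hf hg =>
      rw [map_mul, mul_assoc, hg, mul_smul_comm, hf, smul_smul, ContinuousMap.mul_apply, mul_comm]
    | frequently f hf =>
      have hcl : IsClosed {F : C(spectrum ℝ x, ℝ) | cfcHom (p := IsSelfAdjoint) hx F * T
          = F ⟨1, h1⟩ • T} := by
        refine isClosed_eq ?_ ?_
        · exact (cfcHom_continuous hx).mul continuous_const
        · exact (continuous_eval_const (F := C(spectrum ℝ x, ℝ)) _).smul continuous_const
      have := hcl.mem_of_frequently_of_tendsto hf (Filter.tendsto_id)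
      exact this
  rw [cfc_apply f x hx hf.continuousOn, key]
  rfl

section alg

variable {N : ℕ} {θ : E} {ψ : Fin (N + 1) → Fin (N + 1) → E}

lemma ms_sa (h : MS θ ψ) : IsSelfAdjoint θ := h.pos.sa

lemma ms_comm (h : MS θ ψ) (i j : Fin (N + 1)) : Commute θ (ψ i j) := by
  have h1 : θ * ψ i j = ψ i i * ψ i j := by
    rw [h.mul]
  have h2 : ψ i j * θ = ψ i j * ψ j j := by
    conv_lhs => rw [← h.sum]
    rw [Finset.mul_sum, Finset.sum_eq_single j]
    · intro b _ hb
      exact h.orth _ _ _ _ hb.symm
    · simp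
  show θ * ψ i j = ψ i j * θ
  rw [h2, h.mul]

lemma comm_theta (h : MS θ ψ) {x : E} (hx : ∀ i j, x * ψ i j = ψ i j * x) : Commute θ x := by
  show θ * x = x * θ
  rw [← h.sum, Finset.mul_sum, Finset.sum_mul]
  exact Finset.sum_congr rfl fun i _ => (hx i i).symm

end alg

end Pool.Agent.N749.DT
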